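import Pool.Agent.H58.BL.Stm4

/-!
# The group of the isometries which preserve the norms of blocks of coordinates
(project BL of helper58, BLK)
-/

set_option autoImplicit false

open Finset Module

namespace Pool.Agent.H642.BL

open Pool.Agent.H58

/-- the norm of a block -/
noncomputable def N {n : ℕ} (b : Fin n → Fin n) (j : Fin n) (x : EuclideanSpace ℝ (Fin n)) : ℝ :=
  ∑ i ∈ univ.filter (fun i => b i = j), x i ^ 2

/-- the group of the isometries which preserve the norms of the blocks -/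
def Grp {n : ℕ} (b : Fin n → Fin n) :
    Subgroup (EuclideanSpace ℝ (Fin n) ≃ₗᵢ[ℝ] EuclideanSpace ℝ (Fin n)) where
  carrier := {g | ∀ x j, N b j (g x) = N b j x}
  mul_mem' := by
    intro g h hg hh x j
    have h1 : (g * h) x = g (h x) := rfl
    rw [h1]
    exact (hg (h x) j).trans (hh x j)
  one_mem' := fun x j => rfl
  inv_mem' := by
    intro g hg x j
    have h1 : g (g⁻¹ x) = x := g.apply_symm_apply x
    have h2 := hg (g⁻¹ x) j
    rw [h1] at h2
    exact h2.symm

theorem mem_Grp {n : ℕ} {b : Fin n → Fin n}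
    {g : EuclideanSpace ℝ (Fin n) ≃ₗᵢ[ℝ] EuclideanSpace ℝ (Fin n)} :
    g ∈ Grp b ↔ ∀ x j, N b j (g x) = N b j x := Iff.rfl

theorem sum_N {n : ℕ} (b : Fin n → Fin n) (x : EuclideanSpace ℝ (Fin n)) :
    ‖x‖ ^ 2 = ∑ j, N b j x := by
  rw [EuclideanSpace.real_norm_sq_eq]
  unfold N
  exact (Finset.sum_fiberwise univ b fun i => x i ^ 2).symm

theorem exists_mem {n : ℕ} (b : Fin n → Fin n)
    (T : EuclideanSpace ℝ (Fin n) →ₗ[ℝ] EuclideanSpace ℝ (Fin n))
    (hT : ∀ x j, N b j (T x) = N b j x) : ∃ g ∈ Grp b, ∀ x, g x = T x := by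
  have h1 : ∀ x, ‖T x‖ = ‖x‖ := by
    intro x
    have h2 : ‖T x‖ ^ 2 = ‖x‖ ^ 2 := by
      rw [sum_N b, sum_N b]
      exact Finset.sum_congr rfl fun j _ => hT x j
    exact (sq_eq_sq₀ (norm_nonneg _) (norm_nonneg _)).1 h2
  refine ⟨LinearIsometry.toLinearIsometryEquiv ⟨T, h1⟩ rfl, fun x j => ?_, fun x => rfl⟩
  exact hT x j

theorem N_zero {n : ℕ} {b : Fin n → Fin n} {j : Fin n} {x : EuclideanSpace ℝ (Fin n)}
    (h : N b j x = 0) (i : Fin n) (hi : b i = j) : x i = 0 := by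
  have h1 := (Finset.sum_eq_zero_iff_of_nonneg (fun i _ => sq_nonneg (x i))).1 h i
    (Finset.mem_filter.2 ⟨Finset.mem_univ i, hi⟩)
  exact pow_eq_zero_iff two_ne_zero |>.1 h1

/-- the vectors supported on a block -/
def Blk {n : ℕ} (b : Fin n → Fin n) (j : Fin n) : Submodule ℝ (EuclideanSpace ℝ (Fin n)) where
  carrier := {x | ∀ i, b i ≠ j → x i = 0}
  add_mem' := by
    intro x y hx hy i hi
    rw [PiLp.add_apply, hx i hi, hy i hi, add_zero]
  zero_mem' := fun i _ => rfl
  smul_mem' := by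
    intro c x hx i hi
    rw [PiLp.smul_apply, hx i hi, smul_zero]

theorem inv_Blk {n : ℕ} (b : Fin n → Fin n) (j : Fin n) : AG.Inv (Grp b) (Blk b j) := by
  intro g hg x hx i hi
  refine N_zero (b := b) (j := b i) ?_ i rfl
  rw [hg x (b i)]
  refine Finset.sum_eq_zero fun k hk => ?_
  rw [Finset.mem_filter] at hk
  rw [hx k (by rw [hk.2]; exact hi)]
  norm_num

/-- the sign change on a block -/
noncomputable def sgn {n : ℕ} (b : Fin n → Fin n) (j : Fin n) :
    EuclideanSpace ℝ (Fin n) →ₗ[ℝ] EuclideanSpace ℝ (Fin n) where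
  toFun x := WithLp.toLp 2 fun i => if b i = j then - x i else x i
  map_add' := by
    intro x y
    ext i
    simp only [PiLp.add_apply]
    split_ifs <;> ring
  map_smul' := by
    intro c x
    ext i
    simp only [PiLp.smul_apply, smul_eq_mul, RingHom.id_apply]
    split_ifs <;> ring

theorem sgn_apply {n : ℕ} (b : Fin n → Fin n) (j : Fin n) (x : EuclideanSpace ℝ (Fin n))
    (i : Fin n) : sgn b j x i = if b i = j then - x i else x i := rfl

theorem N_sgn {n : ℕ} (b : Fin n → Fin n) (j : Fin n) (x : EuclideanSpace ℝ (Fin n))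
    (k : Fin n) : N b k (sgn b j x) = N b k x := by
  refine Finset.sum_congr rfl fun i _ => ?_
  rw [sgn_apply]
  split_ifs
  · rw [neg_sq]
  · rfl

theorem part1 {n D : ℕ} {b : Fin n → Fin n}
    (hD : ∀ j, (univ.filter (fun i => b i = j)).card ≤ D)
    {V : Submodule ℝ (EuclideanSpace ℝ (Fin n))} (hV : AG.IsMin (Grp b) V) :
    finrank ℝ V ≤ D := by
  obtain ⟨v, hv, hv0⟩ := (Submodule.ne_bot_iff V).1 hV.2.1
  obtain ⟨i, hi⟩ : ∃ i, v i ≠ 0 := by
    by_contra hc
    push Not at hc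
    apply hv0
    ext i
    exact hc i
  obtain ⟨r, hr, hrv⟩ := exists_mem b (sgn b (b i)) (N_sgn b (b i))
  have h1 : v - r v ∈ V := V.sub_mem hv (hV.1 r hr v hv)
  have h2 : ∀ k, (v - r v) k = if b k = b i then 2 * v k else 0 := by
    intro k
    rw [PiLp.sub_apply, hrv, sgn_apply]
    split_ifs
    · ring
    · ring
  have h3 : V ⊓ Blk b (b i) = V := by
    refine hV.2.2 _ inf_le_left (AG.inv_inf hV.1 (inv_Blk b (b i))) ?_
    rw [Submodule.ne_bot_iff]
    refine ⟨v - r v, ⟨h1, fun k hk => ?_⟩, fun h0 => ?_⟩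
    · rw [h2, if_neg hk]
    · have h4 := h2 i
      rw [h0, if_pos rfl, PiLp.zero_apply] at h4
      exact hi (by linarith)
  have h4 : V ≤ Blk b (b i) := by
    rw [← h3]
    exact inf_le_right
  let f : V →ₗ[ℝ] ({k : Fin n // b k = b i} → ℝ) :=
    { toFun := fun x k => (x : EuclideanSpace ℝ (Fin n)) k.1
      map_add' := fun x y => rfl
      map_smul' := fun c x => rfl }
  have hf : Function.Injective f := by
    intro x y hxy
    apply Subtype.ext
    ext k
    by_cases hk : b k = b i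
    · exact congrFun hxy ⟨k, hk⟩
    · rw [h4 x.2 k hk, h4 y.2 k hk]
  have h5 := LinearMap.finrank_le_finrank_of_injective hf
  rw [Module.finrank_fintype_fun_eq_card, Fintype.card_subtype] at h5
  exact h5.trans (hD (b i))

/-- the product of the reflections in the blocks of `u` -/
noncomputable def rfl' {n : ℕ} (b : Fin n → Fin n) (u : EuclideanSpace ℝ (Fin n)) :
    EuclideanSpace ℝ (Fin n) →ₗ[ℝ] EuclideanSpace ℝ (Fin n) where
  toFun z := WithLp.toLp 2 fun i => z i -
    2 * (∑ k ∈ univ.filter (fun k => b k = b i), z k * u k) / N b (b i) u * u i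
  map_add' := by
    intro x y
    ext i
    simp only [PiLp.add_apply, add_mul, Finset.sum_add_distrib]
    ring
  map_smul' := by
    intro c x
    ext i
    simp only [PiLp.smul_apply, smul_eq_mul, RingHom.id_apply, mul_assoc, ← Finset.mul_sum]
    ring

theorem rfl'_apply {n : ℕ} (b : Fin n → Fin n) (u z : EuclideanSpace ℝ (Fin n)) (i : Fin n) :
    rfl' b u z i = z i -
      2 * (∑ k ∈ univ.filter (fun k => b k = b i), z k * u k) / N b (b i) u * u i := rfl

theorem N_rfl' {n : ℕ} (b : Fin n → Fin n) (u z : EuclideanSpace ℝ (Fin n)) (j : Fin n) :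
    N b j (rfl' b u z) = N b j z := by
  obtain ⟨P, hP⟩ : ∃ P : ℝ, P = ∑ k ∈ univ.filter (fun k => b k = j), z k * u k := ⟨_, rfl⟩
  obtain ⟨Q, hQ⟩ : ∃ Q : ℝ, Q = N b j u := ⟨_, rfl⟩
  obtain ⟨c, hc⟩ : ∃ c : ℝ, c = 2 * P / Q := ⟨_, rfl⟩
  have h1 : N b j (rfl' b u z) = N b j z - 2 * c * P + c ^ 2 * Q := by
    have h2 : ∀ i ∈ univ.filter (fun i => b i = j), (rfl' b u z i) ^ 2 =
        z i ^ 2 - 2 * c * (z i * u i) + c ^ 2 * u i ^ 2 := by
      intro i hi
      rw [Finset.mem_filter] at hi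
      rw [rfl'_apply, hi.2, ← hP, ← hQ, ← hc]
      ring
    unfold N at hQ ⊢
    rw [Finset.sum_congr rfl h2, Finset.sum_add_distrib, Finset.sum_sub_distrib,
      ← Finset.mul_sum, ← Finset.mul_sum, ← hP, ← hQ]
  rw [h1]
  by_cases h0 : Q = 0
  · rw [hc, h0]
    ring
  · rw [hc]
    field_simp
    ring

theorem part2 {n : ℕ} {b : Fin n → Fin n} {x y : EuclideanSpace ℝ (Fin n)}
    (h : ∀ j, N b j x = N b j y) : ∃ g ∈ Grp b, y = g x := by
  obtain ⟨g, hg, hgx⟩ := exists_mem b (rfl' b (x - y)) (N_rfl' b (x - y))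
  refine ⟨g, hg, ?_⟩
  rw [hgx]
  ext i
  rw [rfl'_apply]
  have h1 : N b (b i) (x - y) =
      2 * ∑ k ∈ univ.filter (fun k => b k = b i), x k * (x - y) k := by
    have h2 := h (b i)
    unfold N at h2 ⊢
    have h3 : ∀ k ∈ univ.filter (fun k => b k = b i), (x - y) k ^ 2 =
        2 * (x k * (x - y) k) - x k ^ 2 + y k ^ 2 := by
      intro k _
      rw [PiLp.sub_apply]
      ring
    rw [Finset.sum_congr rfl h3, Finset.sum_add_distrib, Finset.sum_sub_distrib,
      ← Finset.mul_sum, h2]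
    ring
  by_cases h0 : N b (b i) (x - y) = 0
  · have h2 := N_zero h0 i rfl
    rw [h2, mul_zero, sub_zero]
    rw [PiLp.sub_apply] at h2
    linarith
  · rw [← h1, div_self h0, one_mul, PiLp.sub_apply]
    ring

theorem t_blk : Pool.Agent.H58.BL.S_BLK := by
  intro n D b hD
  exact ⟨Grp b, fun V hV => part1 hD hV, fun x y h => part2 h⟩

end Pool.Agent.H642.BL
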